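import Pool.Agent.J4H12.PZ.Stm

/-! Project PZ: the final contradiction (END). -/

set_option autoImplicit false

open MeasureTheory Set Filter Topology Metric
open scoped Pointwise RealInnerProductSpace ENNReal

namespace Pool.Agent.J4H72.PZ

open Pool.Agent.H638.IB Pool.Agent.J4H12.PZ

theorem zero_of_small {x K : ℝ} (h : ∀ p : ℝ, 0 < p → p ≤ 1 → |x| ≤ K * p) : x = 0 := by
  by_contra hx
  have hx0 : 0 < |x| := abs_pos.mpr hx
  have hK : 0 < 2 * (|K| + 1) := by positivity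
  set p := min 1 (|x| / (2 * (|K| + 1))) with hp
  have hp0 : 0 < p := lt_min one_pos (div_pos hx0 hK)
  have h1 := h p hp0 (min_le_left _ _)
  have h2 : p ≤ |x| / (2 * (|K| + 1)) := min_le_right _ _
  have h3 : p * (2 * (|K| + 1)) ≤ |x| := (le_div_iff₀ hK).mp h2
  have h4 : K * p ≤ |K| * p := mul_le_mul_of_nonneg_right (le_abs_self K) hp0.le
  nlinarith

theorem quad_zero {d0 d1 d2 K : ℝ}
    (h : ∀ p : ℝ, 0 < p → p ≤ 1 → |d0 + d1 * p + d2 * p ^ 2| ≤ K * p ^ 4) :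
    d0 = 0 ∧ d1 = 0 ∧ d2 = 0 := by
  have hK : 0 ≤ K := by
    have := h 1 one_pos le_rfl
    have h0 := abs_nonneg (d0 + d1 * 1 + d2 * 1 ^ 2)
    nlinarith
  have h0 : d0 = 0 := by
    apply zero_of_small (K := K + |d1| + |d2|)
    intro p hp hp1
    have h1 := h p hp hp1
    have e : d0 = (d0 + d1 * p + d2 * p ^ 2) - d1 * p - d2 * p ^ 2 := by ring
    have h2 : |d0| ≤ |d0 + d1 * p + d2 * p ^ 2| + |d1 * p| + |d2 * p ^ 2| := by
      calc |d0| = |(d0 + d1 * p + d2 * p ^ 2) - d1 * p - d2 * p ^ 2| := by rw [← e]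
        _ ≤ |(d0 + d1 * p + d2 * p ^ 2) - d1 * p| + |d2 * p ^ 2| := abs_sub _ _
        _ ≤ _ := by gcongr; exact abs_sub _ _
    rw [abs_mul, abs_mul, abs_of_pos hp, abs_of_pos (pow_pos hp 2)] at h2
    have h3 : p ^ 2 ≤ p := by nlinarith
    have h4 : p ^ 4 ≤ p := by
      have : p ^ 4 = p ^ 2 * p ^ 2 := by ring
      nlinarith [pow_pos hp 2]
    have h5 := mul_le_mul_of_nonneg_left h4 hK
    have h6 := mul_le_mul_of_nonneg_left h3 (abs_nonneg d2)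
    nlinarith
  subst h0
  have h1 : d1 = 0 := by
    apply zero_of_small (K := K + |d2|)
    intro p hp hp1
    have h1 := h p hp hp1
    have e1 : (0 : ℝ) + d1 * p + d2 * p ^ 2 = (d1 + d2 * p) * p := by ring
    rw [e1, abs_mul, abs_of_pos hp] at h1
    have h2 : |d1 + d2 * p| ≤ K * p ^ 3 := by
      have : |d1 + d2 * p| * p ≤ (K * p ^ 3) * p := by nlinarith
      exact le_of_mul_le_mul_right this hp
    have h3 : |d1| ≤ |d1 + d2 * p| + |d2 * p| := by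
      calc |d1| = |(d1 + d2 * p) - d2 * p| := by ring_nf
        _ ≤ _ := abs_sub _ _
    rw [abs_mul, abs_of_pos hp] at h3
    have h4 : p ^ 3 ≤ p := by
      have : p ^ 3 = p ^ 2 * p := by ring
      nlinarith [pow_pos hp 2]
    have h5 := mul_le_mul_of_nonneg_left h4 hK
    nlinarith
  subst h1
  refine ⟨rfl, rfl, ?_⟩
  apply zero_of_small (K := K)
  intro p hp hp1
  have h1 := h p hp hp1
  have e1 : (0 : ℝ) + 0 * p + d2 * p ^ 2 = d2 * p ^ 2 := by ring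
  rw [e1, abs_mul, abs_of_pos (pow_pos hp 2)] at h1
  have h2 : |d2| ≤ K * p ^ 2 := by
    have : |d2| * p ^ 2 ≤ (K * p ^ 2) * p ^ 2 := by nlinarith
    exact le_of_mul_le_mul_right this (pow_pos hp 2)
  have h3 : p ^ 2 ≤ p := by nlinarith
  have h5 := mul_le_mul_of_nonneg_left h3 hK
  linarith

theorem inner_e0 {L : ℕ} (x : E (L + 3)) : ⟪e0 L, x⟫ = x 0 := by
  obtain ⟨s, y, rfl⟩ := exists_mk x
  unfold e0
  rw [PiLp.inner_apply, Fin.sum_univ_succ]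
  simp [mk_zero_apply, mk_succ_apply]

theorem inner_te0 {L : ℕ} (τ : ℝ) (x : E (L + 3)) : ⟪τ • e0 L, x⟫ = τ * x 0 := by
  rw [real_inner_smul_left, inner_e0]

theorem X_zero {L : ℕ} (p : ℝ) (q : ℝ × E (L + 1)) : (X p 0 q) 0 = -(p * q.1) := by
  unfold X
  rw [mk_zero_apply]
  ring

theorem X_norm {L : ℕ} (p : ℝ) (q : ℝ × E (L + 1)) : q.1 ^ 2 ≤ ‖X p 0 q‖ ^ 2 := by
  unfold X
  rw [norm_mk_sq, norm_mk_sq]
  nlinarith [sq_nonneg (-(p * q.1 + 0 * q.2 0)), sq_nonneg ‖q.2‖]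

/-- The power sum. -/
noncomputable def Sf {n k : ℕ} (a : Fin k → E n) (m : ℕ) (x : E n) : ℝ :=
  ∑ i, ⟪a i, x⟫ ^ (2 * m)

theorem Sf_nonneg {n k : ℕ} (a : Fin k → E n) (m : ℕ) (x : E n) : 0 ≤ Sf a m x := by
  unfold Sf
  apply Finset.sum_nonneg
  intro i _
  rw [pow_mul]
  positivity

theorem Sf_smul {n k : ℕ} (a : Fin k → E n) (m : ℕ) (c : ℝ) (x : E n) :
    Sf a m (c • x) = c ^ (2 * m) * Sf a m x := by
  unfold Sf
  rw [Finset.mul_sum]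
  apply Finset.sum_congr rfl
  intro i _
  rw [real_inner_smul_right, mul_pow]

theorem Sf_low {L k : ℕ} (a : Fin k → E (L + 3)) (m : ℕ) (hm : 1 ≤ m)
    (hnd : ∀ x, x ≠ 0 → ∃ i, ⟪a i, x⟫ ≠ 0) :
    ∃ c : ℝ, 0 < c ∧ ∀ x, c * ‖x‖ ^ (2 * m) ≤ Sf a m x := by
  have hcont : Continuous (Sf a m) := by
    unfold Sf
    fun_prop
  have hne : (sphere (0 : E (L + 3)) 1).Nonempty := by
    refine ⟨e0 L, ?_⟩
    rw [mem_sphere_zero_iff_norm]
    have h : ‖e0 L‖ ^ 2 = 1 := by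
      unfold e0
      rw [norm_mk_sq]; simp
    nlinarith [norm_nonneg (e0 L)]
  obtain ⟨x0, hx0, hmin⟩ := (isCompact_sphere (0 : E (L + 3)) 1).exists_isMinOn hne
    hcont.continuousOn
  have hx0' : x0 ≠ 0 := by
    rintro rfl
    rw [mem_sphere_zero_iff_norm, norm_zero] at hx0
    exact zero_ne_one hx0
  have hpos : 0 < Sf a m x0 := by
    obtain ⟨i, hi⟩ := hnd x0 hx0'
    unfold Sf
    apply Finset.sum_pos' (fun j _ => by rw [pow_mul]; positivity)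
    refine ⟨i, Finset.mem_univ _, ?_⟩
    rw [pow_mul]
    positivity
  refine ⟨Sf a m x0, hpos, fun x => ?_⟩
  by_cases hx : x = 0
  · subst hx
    rw [norm_zero, zero_pow (by omega), mul_zero]
    exact Sf_nonneg _ _ _
  · have hn : 0 < ‖x‖ := norm_pos_iff.mpr hx
    have hu : ‖x‖⁻¹ • x ∈ sphere (0 : E (L + 3)) 1 := by
      rw [mem_sphere_zero_iff_norm, norm_smul, norm_inv, norm_norm, inv_mul_cancel₀ hn.ne']
    have h1 : Sf a m x0 ≤ Sf a m (‖x‖⁻¹ • x) := hmin hu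
    have h2 : Sf a m x = ‖x‖ ^ (2 * m) * Sf a m (‖x‖⁻¹ • x) := by
      rw [← Sf_smul, smul_smul, mul_inv_cancel₀ hn.ne', one_smul]
    rw [h2, mul_comm]
    exact mul_le_mul_of_nonneg_left h1 (by positivity)

theorem diff_bound {S e D c B P μ : ℝ} (hμ0 : 0 ≤ μ) (hμ1 : μ ≤ 1) (hc : 0 < c) (hB : 0 < B)
    (hS : c * B ≤ S) (he0 : 0 ≤ e) (he : e ≤ P * B) (hD : S ^ μ ≤ D) :
    (S + e) ^ μ - S ^ μ ≤ D * (P / c) := by
  have hS0 : 0 < S := lt_of_lt_of_le (mul_pos hc hB) hS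
  have h1 : (S + e) ^ μ = S ^ μ * (1 + e / S) ^ μ := by
    rw [← Real.mul_rpow hS0.le (by positivity)]
    congr 1
    field_simp
  have h2 : (1 + e / S) ^ μ ≤ 1 + e / S := by
    have : (1 : ℝ) ≤ 1 + e / S := by
      have : 0 ≤ e / S := by positivity
      linarith
    calc (1 + e / S) ^ μ ≤ (1 + e / S) ^ (1 : ℝ) := Real.rpow_le_rpow_of_exponent_le this hμ1
      _ = _ := Real.rpow_one _
  have hSμ : 0 ≤ S ^ μ := Real.rpow_nonneg hS0.le _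
  have h3 : e / S ≤ P / c := by
    rw [div_le_div_iff₀ hS0 hc]
    have hP : 0 ≤ P := by
      by_contra hP
      push Not at hP
      nlinarith
    nlinarith [mul_le_mul_of_nonneg_left hS hP]
  have h4 : 0 ≤ P / c := le_trans (by positivity) h3
  rw [h1]
  have h5 : S ^ μ * (1 + e / S) ^ μ ≤ S ^ μ * (1 + e / S) := mul_le_mul_of_nonneg_left h2 hSμ
  have h6 : S ^ μ * (e / S) ≤ D * (P / c) :=
    mul_le_mul hD h3 (by positivity) (le_trans hSμ hD)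
  nlinarith

theorem Nf_eq {n k : ℕ} (a : Fin k → E n) (m : ℕ) (δ : ℝ) (x : E n) :
    Nf a m δ x = (Sf a m x) ^ ((m : ℝ)⁻¹) + δ * ‖x‖ ^ 2 := rfl

theorem Sf_cons {L k : ℕ} (a : Fin k → E (L + 3)) (m : ℕ) (τ : ℝ) (x : E (L + 3)) :
    Sf (Fin.cons (τ • e0 L) a : Fin (k + 1) → _) m x = Sf a m x + (τ * x 0) ^ (2 * m) := by
  unfold Sf
  rw [Fin.sum_univ_succ, Fin.cons_zero, inner_te0, add_comm]
  simp only [Fin.cons_succ]

theorem Nf_mono {L k : ℕ} (a : Fin k → E (L + 3)) (m : ℕ) (δ τ : ℝ) (x : E (L + 3)) :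
    Nf a m δ x ≤ Nf (Fin.cons (τ • e0 L) a : Fin (k + 1) → _) m δ x := by
  rw [Nf_eq, Nf_eq, Sf_cons]
  have h : 0 ≤ (τ * x 0) ^ (2 * m) := by rw [pow_mul]; positivity
  have := Real.rpow_le_rpow (Sf_nonneg a m x) (le_add_of_nonneg_right (a := Sf a m x) h)
    (z := (m : ℝ)⁻¹) (by positivity)
  linarith

theorem Nf_strict {L k : ℕ} (a : Fin k → E (L + 3)) (m : ℕ) (hm : 1 ≤ m) (δ τ : ℝ) (hτ : 0 < τ)
    (x : E (L + 3)) (hx : x 0 ≠ 0) :
    Nf a m δ x < Nf (Fin.cons (τ • e0 L) a : Fin (k + 1) → _) m δ x := by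
  rw [Nf_eq, Nf_eq, Sf_cons]
  have h : 0 < (τ * x 0) ^ (2 * m) := by
    rw [pow_mul]
    have : 0 < (τ * x 0) ^ 2 := by positivity
    positivity
  have hm0 : (0 : ℝ) < (m : ℝ)⁻¹ := by
    have : (0 : ℝ) < m := by exact_mod_cast hm
    positivity
  have := Real.rpow_lt_rpow (Sf_nonneg a m x) (lt_add_of_pos_right (Sf a m x) h) hm0
  linarith

/-- The pointwise bound of the difference. -/
theorem Nf_diff {L k : ℕ} (a : Fin k → E (L + 3)) (m : ℕ) (hm : 1 ≤ m) (δ τ c C : ℝ)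
    (hδ : 0 ≤ δ) (hc : 0 < c) (hlow : ∀ x, c * ‖x‖ ^ (2 * m) ≤ Sf a m x)
    (hup : ∀ x, Nf a m δ x ≤ C * ‖x‖ ^ 2) (p : ℝ) (q : ℝ × E (L + 1)) :
    Nf (Fin.cons (τ • e0 L) a : Fin (k + 1) → _) m δ (X p 0 q) - Nf a m δ (X p 0 q) ≤
      C / c * (τ * p) ^ (2 * m) * ‖X p 0 q‖ ^ 2 := by
  rw [Nf_eq, Nf_eq, Sf_cons, X_zero]
  set x := X p 0 q with hxdef
  have hm0 : (0 : ℝ) < m := by exact_mod_cast hm
  have hm1 : (1 : ℝ) ≤ m := by exact_mod_cast hm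
  by_cases hx : x = 0
  · have hq : q.1 = 0 := by
      have := X_norm p q
      rw [← hxdef, hx, norm_zero] at this
      nlinarith [sq_nonneg q.1]
    rw [hx, hq]
    simp only [mul_zero, neg_zero, norm_zero]
    rw [zero_pow (by omega : 2 * m ≠ 0), add_zero]
    simp
  · have hn : 0 < ‖x‖ := norm_pos_iff.mpr hx
    have hr : q.1 ^ 2 ≤ ‖x‖ ^ 2 := X_norm p q
    have he : (τ * -(p * q.1)) ^ (2 * m) ≤ (τ * p) ^ (2 * m) * ‖x‖ ^ (2 * m) := by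
      have e1 : (τ * -(p * q.1)) ^ (2 * m) = (τ * p) ^ (2 * m) * (q.1 ^ 2) ^ m := by
        rw [pow_mul, pow_mul, ← mul_pow]
        congr 1
        ring
      rw [e1, pow_mul ‖x‖]
      apply mul_le_mul_of_nonneg_left
      · exact pow_le_pow_left₀ (sq_nonneg _) hr m
      · rw [pow_mul]; positivity
    have hD : (Sf a m x) ^ ((m : ℝ)⁻¹) ≤ C * ‖x‖ ^ 2 := by
      have := hup x
      rw [Nf_eq] at this
      nlinarith [mul_nonneg hδ (sq_nonneg ‖x‖)]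
    have h := diff_bound (S := Sf a m x) (e := (τ * -(p * q.1)) ^ (2 * m)) (D := C * ‖x‖ ^ 2)
      (c := c) (B := ‖x‖ ^ (2 * m)) (P := (τ * p) ^ (2 * m)) (μ := (m : ℝ)⁻¹) (by positivity)
      (inv_le_one_of_one_le₀ hm1) hc (by positivity) (hlow x)
      (by rw [pow_mul]; positivity) he hD
    have e2 : C * ‖x‖ ^ 2 * ((τ * p) ^ (2 * m) / c) = C / c * (τ * p) ^ (2 * m) * ‖x‖ ^ 2 := by
      ring
    linarith

theorem ee_zero {L : ℕ} (N : E (L + 3) → ℝ) (p t : ℝ) (q : ℝ × E (L + 1)) :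
    ee N 0 p t q = Real.exp (-N (X p t q)) := by
  unfold ee
  rw [zero_mul, sub_zero]

/-- The pointwise bound of the difference of the integrands. -/
theorem ee_diff {L k : ℕ} (a : Fin k → E (L + 3)) (m : ℕ) (hm : 1 ≤ m) (δ τ c C : ℝ)
    (hδ : 0 < δ) (hc : 0 < c) (hC : 0 ≤ C) (hlow : ∀ x, c * ‖x‖ ^ (2 * m) ≤ Sf a m x)
    (hup : ∀ x, Nf a m δ x ≤ C * ‖x‖ ^ 2) (p : ℝ) (q : ℝ × E (L + 1)) :
    ee (Nf a m δ) 0 p 0 q - ee (Nf (Fin.cons (τ • e0 L) a : Fin (k + 1) → _) m δ) 0 p 0 q ≤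
      (C / c * (τ * p) ^ (2 * m) * (2 / δ)) * ee (Nf a m (δ / 2)) 0 p 0 q := by
  rw [ee_zero, ee_zero, ee_zero]
  set x := X p 0 q with hx
  set D := Nf (Fin.cons (τ • e0 L) a : Fin (k + 1) → _) m δ x - Nf a m δ x with hDdef
  have hD : D ≤ C / c * (τ * p) ^ (2 * m) * ‖x‖ ^ 2 := Nf_diff a m hm δ τ c C hδ.le hc hlow hup p q
  have h1 : Real.exp (-Nf a m δ x) -
      Real.exp (-Nf (Fin.cons (τ • e0 L) a : Fin (k + 1) → _) m δ x) ≤
      Real.exp (-Nf a m δ x) * D := by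
    have e : -Nf (Fin.cons (τ • e0 L) a : Fin (k + 1) → _) m δ x = -Nf a m δ x + -D := by
      rw [hDdef]; ring
    rw [e, Real.exp_add]
    have h2 := Real.add_one_le_exp (-D)
    have h3 := mul_le_mul_of_nonneg_left h2 (Real.exp_pos (-Nf a m δ x)).le
    nlinarith
  have h2 : Real.exp (-Nf a m δ x) * ‖x‖ ^ 2 ≤ 2 / δ * Real.exp (-Nf a m (δ / 2) x) := by
    have e : -Nf a m δ x = -Nf a m (δ / 2) x + -(δ / 2 * ‖x‖ ^ 2) := by
      rw [Nf_eq, Nf_eq]; ring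
    rw [e, Real.exp_add]
    have h3 : δ / 2 * ‖x‖ ^ 2 * Real.exp (-(δ / 2 * ‖x‖ ^ 2)) ≤ 1 := by
      have h4 : δ / 2 * ‖x‖ ^ 2 ≤ Real.exp (δ / 2 * ‖x‖ ^ 2) := by
        have := Real.add_one_le_exp (δ / 2 * ‖x‖ ^ 2)
        linarith
      calc δ / 2 * ‖x‖ ^ 2 * Real.exp (-(δ / 2 * ‖x‖ ^ 2)) ≤
          Real.exp (δ / 2 * ‖x‖ ^ 2) * Real.exp (-(δ / 2 * ‖x‖ ^ 2)) :=
            mul_le_mul_of_nonneg_right h4 (Real.exp_pos _).le
        _ = 1 := by rw [← Real.exp_add, add_neg_cancel, Real.exp_zero]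
    have h5 : ‖x‖ ^ 2 * Real.exp (-(δ / 2 * ‖x‖ ^ 2)) ≤ 2 / δ := by
      rw [le_div_iff₀ hδ]
      nlinarith
    have h6 := mul_le_mul_of_nonneg_left h5 (Real.exp_pos (-Nf a m (δ / 2) x)).le
    nlinarith
  have hP : 0 ≤ C / c * (τ * p) ^ (2 * m) := by
    rw [pow_mul]
    positivity
  calc _ ≤ Real.exp (-Nf a m δ x) * D := h1
    _ ≤ Real.exp (-Nf a m δ x) * (C / c * (τ * p) ^ (2 * m) * ‖x‖ ^ 2) :=
        mul_le_mul_of_nonneg_left hD (Real.exp_pos _).le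
    _ = (C / c * (τ * p) ^ (2 * m)) * (Real.exp (-Nf a m δ x) * ‖x‖ ^ 2) := by ring
    _ ≤ (C / c * (τ * p) ^ (2 * m)) * (2 / δ * Real.exp (-Nf a m (δ / 2) x)) :=
        mul_le_mul_of_nonneg_left h2 hP
    _ = _ := by ring

theorem cons_nd {L k : ℕ} (a : Fin k → E (L + 3)) (τ : ℝ)
    (hnd : ∀ x, x ≠ 0 → ∃ i, ⟪a i, x⟫ ≠ 0) :
    ∀ x, x ≠ 0 → ∃ i, ⟪(Fin.cons (τ • e0 L) a : Fin (k + 1) → E (L + 3)) i, x⟫ ≠ 0 := by
  intro x hx
  obtain ⟨i, hi⟩ := hnd x hx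
  exact ⟨i.succ, by rwa [Fin.cons_succ]⟩

theorem t_END (hN : S_NICE) (hI : S_INT) : S_END := by
  intro L k a m δ τ hm hδ hτ hnd ⟨c0, c1, c2, hq⟩ ⟨c0', c1', c2', hq'⟩
  have hm1 : 1 ≤ m := by omega
  obtain ⟨N1, N2, C, hnice⟩ := hN L k a m δ hm1 hδ hnd
  obtain ⟨N1', N2', C', hnice'⟩ := hN L (k + 1) (Fin.cons (τ • e0 L) a) m δ hm1 hδ
    (cons_nd a τ hnd)
  obtain ⟨M1, M2, C2, hnice2⟩ := hN L k a m (δ / 2) hm1 (by positivity) hnd
  obtain ⟨i1, -, -, i4, i5, -, -, -⟩ := hI L _ _ _ _ _ hnice 0 le_rfl hδ.le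
  obtain ⟨j1, -, -, j4, j5, -, -, -⟩ := hI L _ _ _ _ _ hnice' 0 le_rfl hδ.le
  obtain ⟨k1, -, -, -, k5, -, -, -⟩ := hI L _ _ _ _ _ hnice2 0 le_rfl (by positivity)
  obtain ⟨l1, u1, hl1, hb1⟩ := i5 1
  obtain ⟨l2, u2, hl2, hb2⟩ := j5 1
  obtain ⟨l3, u3, hl3, hb3⟩ := k5 1
  obtain ⟨c, hc, hlow⟩ := Sf_low a m hm1 hnd
  have hC : 0 ≤ C := by
    have h1 := hnice.upper (e0 L)
    have h2 := hnice.lower (e0 L)
    have h : ‖e0 L‖ ^ 2 = 1 := by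
      unfold e0
      rw [norm_mk_sq]; simp
    rw [h] at h1 h2
    linarith
  set f : ℝ → ℝ := fun p => AA (Nf a m δ) 0 p 0 with hf
  set f' : ℝ → ℝ := fun p => AA (Nf (Fin.cons (τ • e0 L) a : Fin (k + 1) → _) m δ) 0 p 0 with hf'
  have hfpos : ∀ p, 0 < f p := fun p => i4 p 0
  have hf'pos : ∀ p, 0 < f' p := fun p => j4 p 0
  have hsub : ∀ p, f p - f' p = ∫ q : ℝ × E (L + 1), (ee (Nf a m δ) 0 p 0 q -
      ee (Nf (Fin.cons (τ • e0 L) a : Fin (k + 1) → _) m δ) 0 p 0 q) := by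
    intro p
    rw [integral_sub (i1 p 0) (j1 p 0)]
    rfl
  have hnn : ∀ (p : ℝ) (q : ℝ × E (L + 1)), 0 ≤ ee (Nf a m δ) 0 p 0 q -
      ee (Nf (Fin.cons (τ • e0 L) a : Fin (k + 1) → _) m δ) 0 p 0 q := by
    intro p q
    rw [ee_zero, ee_zero, sub_nonneg]
    exact Real.exp_le_exp.mpr (neg_le_neg (Nf_mono a m δ τ _))
  have hmono : ∀ p, f' p ≤ f p := by
    intro p
    have := integral_nonneg (μ := (volume : Measure (ℝ × E (L + 1)))) (f := fun q => ee (Nf a m δ) 0 p 0 q -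
      ee (Nf (Fin.cons (τ • e0 L) a : Fin (k + 1) → _) m δ) 0 p 0 q) (hnn p)
    rw [← hsub p] at this
    linarith
  have hstrict : f' 1 < f 1 := by
    rcases lt_or_eq_of_le (hmono 1) with h | h
    · exact h
    exfalso
    have h0 : ∫ q : ℝ × E (L + 1), (ee (Nf a m δ) 0 1 0 q -
        ee (Nf (Fin.cons (τ • e0 L) a : Fin (k + 1) → _) m δ) 0 1 0 q) = 0 := by
      rw [← hsub 1, h, sub_self]
    rw [integral_eq_zero_iff_of_nonneg (hnn 1) ((i1 1 0).sub (j1 1 0))] at h0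
    have h1 : ∀ᵐ q : ℝ × E (L + 1), q.1 = 0 := by
      filter_upwards [h0] with q hq0
      by_contra hq1
      have hx : (X 1 0 q) 0 ≠ 0 := by
        rw [X_zero, one_mul]
        exact neg_ne_zero.mpr hq1
      have hs := Nf_strict a m hm1 δ τ hτ (X 1 0 q) hx
      rw [Pi.zero_apply, ee_zero, ee_zero, sub_eq_zero] at hq0
      have := Real.exp_injective hq0
      linarith
    have hopen : IsOpen {q : ℝ × E (L + 1) | q.1 ≠ 0} := isOpen_ne_fun continuous_fst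
      continuous_const
    have hne : {q : ℝ × E (L + 1) | q.1 ≠ 0}.Nonempty := ⟨(1, 0), by simp⟩
    have hpos := hopen.measure_pos (volume : Measure (ℝ × E (L + 1))) hne
    have hz : (volume : Measure (ℝ × E (L + 1))) {q : ℝ × E (L + 1) | q.1 ≠ 0} = 0 := by
      rw [ae_iff] at h1
      exact h1
    rw [hz] at hpos
    exact lt_irrefl _ hpos
  -- the upper bound
  set K1 : ℝ := C / c * τ ^ (2 * m) * (2 / δ) * u3 with hK1
  have hu3 : 0 ≤ u3 := by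
    have := hb3 0 (by simp)
    linarith [this.1, this.2]
  have hup : ∀ p : ℝ, 0 < p → p ≤ 1 → f p - f' p ≤ K1 * p ^ 4 := by
    intro p hp hp1
    rw [hsub p]
    have h1 : ∫ q : ℝ × E (L + 1), (ee (Nf a m δ) 0 p 0 q -
        ee (Nf (Fin.cons (τ • e0 L) a : Fin (k + 1) → _) m δ) 0 p 0 q) ≤
        ∫ q : ℝ × E (L + 1), (C / c * (τ * p) ^ (2 * m) * (2 / δ)) *
          ee (Nf a m (δ / 2)) 0 p 0 q := by
      apply integral_mono ((i1 p 0).sub (j1 p 0)) ((k1 p 0).const_mul _)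
      intro q
      exact ee_diff a m hm1 δ τ c C hδ hc hC hlow hnice.upper p q
    rw [integral_const_mul] at h1
    have h2 : (∫ q : ℝ × E (L + 1), ee (Nf a m (δ / 2)) 0 p 0 q) ≤ u3 :=
      (hb3 p (by rw [abs_of_pos hp]; exact hp1)).2
    have h3 : p ^ (2 * m) ≤ p ^ 4 := pow_le_pow_of_le_one hp.le hp1 (by omega)
    have hK : 0 ≤ C / c * (τ * p) ^ (2 * m) * (2 / δ) := by positivity
    have h4 := mul_le_mul_of_nonneg_left h2 hK
    have h5 : C / c * (τ * p) ^ (2 * m) * (2 / δ) * u3 = K1 * p ^ (2 * m) := by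
      rw [hK1, mul_pow]; ring
    have hK10 : 0 ≤ K1 := by rw [hK1]; positivity
    have h6 := mul_le_mul_of_nonneg_left h3 hK10
    linarith
  -- the quadratic polynomial
  have hR : ∀ p : ℝ, 0 < p → p ≤ 1 → |(c0' - c0) + (c1' - c1) * p + (c2' - c2) * p ^ 2| ≤
      (K1 * (2 * u1) / (l1 ^ 2 * l2 ^ 2)) * p ^ 4 := by
    intro p hp hp1
    have hpn : p ≠ 0 := hp.ne'
    have hpn1 : p ≠ -1 := by linarith
    have h1 := hq p hpn hpn1
    have h2 := hq' p hpn hpn1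
    have hbp : |p| ≤ 1 := by rw [abs_of_pos hp]; exact hp1
    have e : (c0' - c0) + (c1' - c1) * p + (c2' - c2) * p ^ 2 = (f' p)⁻¹ ^ 2 - (f p)⁻¹ ^ 2 := by
      show _ = (AA (Nf (Fin.cons (τ • e0 L) a : Fin (k + 1) → _) m δ) 0 p 0)⁻¹ ^ 2 -
        (AA (Nf a m δ) 0 p 0)⁻¹ ^ 2
      rw [h1, h2]; ring
    have hfp := hfpos p
    have hf'p := hf'pos p
    have hb1p := hb1 p hbp
    have hb2p := hb2 p hbp
    have e2 : (f' p)⁻¹ ^ 2 - (f p)⁻¹ ^ 2 = (f p - f' p) * (f p + f' p) / (f p ^ 2 * f' p ^ 2) := by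
      field_simp
      ring
    have hm' := hmono p
    have hup' := hup p hp hp1
    have hK10 : 0 ≤ K1 * p ^ 4 := le_trans (by linarith) hup'
    rw [e, e2, abs_of_nonneg (by
      apply div_nonneg (mul_nonneg (by linarith) (by linarith)) (by positivity))]
    have hnum : (f p - f' p) * (f p + f' p) ≤ K1 * p ^ 4 * (2 * u1) := by
      apply mul_le_mul hup' _ (by linarith) hK10
      have : f p ≤ u1 := hb1p.2
      linarith
    have hden : l1 ^ 2 * l2 ^ 2 ≤ f p ^ 2 * f' p ^ 2 := by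
      apply mul_le_mul (pow_le_pow_left₀ hl1.le hb1p.1 2) (pow_le_pow_left₀ hl2.le hb2p.1 2)
        (by positivity) (by positivity)
    have hu1 : 0 ≤ u1 := le_trans (le_trans hl1.le hb1p.1) hb1p.2
    calc (f p - f' p) * (f p + f' p) / (f p ^ 2 * f' p ^ 2) ≤
        K1 * p ^ 4 * (2 * u1) / (f p ^ 2 * f' p ^ 2) :=
          div_le_div_of_nonneg_right hnum (by positivity)
      _ ≤ K1 * p ^ 4 * (2 * u1) / (l1 ^ 2 * l2 ^ 2) :=
          div_le_div_of_nonneg_left (by positivity) (by positivity) hden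
      _ = _ := by ring
  obtain ⟨z0, z1, z2⟩ := quad_zero hR
  have h1 := hq 1 one_ne_zero (by norm_num)
  have h2 := hq' 1 one_ne_zero (by norm_num)
  have e : (f' 1)⁻¹ ^ 2 = (f 1)⁻¹ ^ 2 := by
    show (AA (Nf (Fin.cons (τ • e0 L) a : Fin (k + 1) → _) m δ) 0 1 0)⁻¹ ^ 2 =
      (AA (Nf a m δ) 0 1 0)⁻¹ ^ 2
    rw [h1, h2]
    linarith
  have h3 : (f 1)⁻¹ < (f' 1)⁻¹ := (inv_lt_inv₀ (hfpos 1) (hf'pos 1)).mpr hstrict
  have h4 : (f 1)⁻¹ ^ 2 < (f' 1)⁻¹ ^ 2 :=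
    pow_lt_pow_left₀ h3 (inv_pos.mpr (hfpos 1)).le two_ne_zero
  linarith

end Pool.Agent.J4H72.PZ
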